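import Pool.Agent.H849Z.Conv.Word

namespace Pool.Agent.H849Z.Conv

open Filter Topology

variable {G : Type*} [Group G] {S : Set G} {δ : ℝ}

/-- eventually the products of two sequences are at least `r` -/
def E (S : Set G) (r : ℝ) (x y : ℕ → G) : Prop :=
  ∃ N : ℕ, ∀ m ≥ N, ∀ n ≥ N, r ≤ gp S 1 (x m) (y n)

theorem E.mono {r r' : ℝ} {x y : ℕ → G} (h : E S r x y) (hr : r' ≤ r) : E S r' x y := by
  obtain ⟨N, hN⟩ := h
  exact ⟨N, fun m hm n hn => hr.trans (hN m hm n hn)⟩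

theorem E.symm (H : Hyp S δ) {r : ℝ} {x y : ℕ → G} (h : E S r x y) : E S r y x := by
  obtain ⟨N, hN⟩ := h
  exact ⟨N, fun m hm n hn => by rw [gp_comm H.gen]; exact hN n hn m hm⟩

theorem E.trans (H : Hyp S δ) {r : ℝ} {x y z : ℕ → G} (h : E S r x y) (h' : E S r y z) :
    E S (r - δ) x z := by
  obtain ⟨N, hN⟩ := h
  obtain ⟨M, hM⟩ := h'
  refine ⟨max N M, fun m hm n hn => ?_⟩
  exact H.tr (hN m (le_of_max_le_left hm) (max N M) (le_max_left _ _))
    (hM (max N M) (le_max_right _ _) n (le_of_max_le_right hn))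

theorem E.smul (H : Hyp S δ) {r : ℝ} {x y : ℕ → G} (g : G) (h : E S r x y) :
    E S (r - wlen S g) (fun n => g * x n) (fun n => g * y n) := by
  obtain ⟨N, hN⟩ := h
  refine ⟨N, fun m hm n hn => ?_⟩
  have h1 := gp_mul (S := S) g 1 (x m) (y n)
  have h2 := gp_base H.gen (g * 1) 1 (g * x m) (g * y n)
  rw [D_comm H.gen, D_one, mul_one] at h2
  rw [mul_one] at h1
  have := hN m hm n hn
  linarith

/-- translate of a sequence converging to infinity -/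
def GSeq.smul (H : Hyp S δ) (g : G) (x : GSeq S) : GSeq S :=
  ⟨fun n => g * x.1 n, fun R => by
    have h : E S (R + wlen S g) x.1 x.1 := x.2 _
    have := h.smul H g
    rw [add_sub_cancel_right] at this
    exact this⟩

theorem rel_iff (H : Hyp S δ) (x y : GSeq S) : x.Rel y ↔ ∀ r, E S r x.1 y.1 := by
  constructor
  · intro h r
    obtain ⟨N, hN⟩ := h (r + δ)
    obtain ⟨M, hM⟩ := x.2 (r + δ)
    refine ⟨max N M, fun m hm n hn => ?_⟩
    have := H.tr (hM m (le_of_max_le_right hm) n (le_of_max_le_right hn))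
      (hN n (le_of_max_le_left hn))
    linarith
  · intro h r
    obtain ⟨N, hN⟩ := h r
    exact ⟨N, fun n hn => hN n hn n hn⟩

theorem rel_equiv (H : Hyp S δ) : Equivalence (GSeq.Rel (S := S)) where
  refl x := (rel_iff H x x).2 x.2
  symm {x y} h := (rel_iff H y x).2 fun r => ((rel_iff H x y).1 h r).symm H
  trans {x y z} h h' := (rel_iff H x z).2 fun r => by
    have := ((rel_iff H x y).1 h (r + δ)).trans H ((rel_iff H y z).1 h' (r + δ))
    rwa [add_sub_cancel_right] at this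

theorem lim_eq_iff (H : Hyp S δ) (x y : GSeq S) : x.lim = y.lim ↔ ∀ r, E S r x.1 y.1 := by
  rw [← rel_iff H, ← (rel_equiv H).eqvGen_iff]
  exact Quot.eq

theorem exists_rep (ξ : Bdry S) : ∃ x : GSeq S, x.lim = ξ := Quot.exists_rep ξ

theorem E.near {r : ℝ} {x y : GSeq S} (h : E S r x.1 y.1) : Near r x.lim y.lim :=
  ⟨x, y, rfl, rfl, h⟩

theorem Near.toE (H : Hyp S δ) {r : ℝ} {x y : GSeq S} (h : Near r x.lim y.lim) :
    E S (r - 2 * δ) x.1 y.1 := by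
  obtain ⟨u, v, hu, hv, h⟩ := h
  have h1 := (lim_eq_iff H x u).1 hu.symm r
  have h2 := (lim_eq_iff H v y).1 hv (r - δ)
  have h3 := (h1.trans H h).trans H h2
  exact h3.mono (by linarith)

theorem Near.mono {r r' : ℝ} {ξ η : Bdry S} (h : Near r ξ η) (hr : r' ≤ r) : Near r' ξ η := by
  obtain ⟨u, v, hu, hv, h⟩ := h
  exact ⟨u, v, hu, hv, E.mono h hr⟩

theorem Near.refl (r : ℝ) (ξ : Bdry S) : Near r ξ ξ := by
  obtain ⟨x, rfl⟩ := exists_rep ξ
  exact E.near (x.2 r)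

theorem Near.symm (H : Hyp S δ) {r : ℝ} {ξ η : Bdry S} (h : Near r ξ η) : Near r η ξ := by
  obtain ⟨u, v, hu, hv, h⟩ := h
  exact ⟨v, u, hv, hu, E.symm H h⟩

theorem Near.trans (H : Hyp S δ) {r : ℝ} {ξ η ζ : Bdry S} (h : Near r ξ η) (h' : Near r η ζ) :
    Near (r - 3 * δ) ξ ζ := by
  obtain ⟨x, rfl⟩ := exists_rep ξ
  obtain ⟨y, rfl⟩ := exists_rep η
  obtain ⟨z, rfl⟩ := exists_rep ζ
  exact E.near (((h.toE H).trans H (h'.toE H)).mono (by linarith))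

theorem eq_of_near (H : Hyp S δ) {ξ η : Bdry S} (h : ∀ r, Near r ξ η) : ξ = η := by
  obtain ⟨x, rfl⟩ := exists_rep ξ
  obtain ⟨y, rfl⟩ := exists_rep η
  refine (lim_eq_iff H x y).2 fun r => ((h (r + 2 * δ)).toE H).mono (by linarith)

theorem near_nhds (H : Hyp S δ) (R : ℝ) (ξ : Bdry S) : {η | Near R ξ η} ∈ 𝓝 ξ := by
  have hδ := H.nonneg
  rw [mem_nhds_iff]
  refine ⟨{η | ∃ R', ∀ ζ, Near R' η ζ → Near R ξ ζ}, ?_, ?_, ⟨R, fun _ h => h⟩⟩
  · rintro η ⟨R', h⟩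
    exact h η (Near.refl _ _)
  · rintro η ⟨R', h⟩
    refine ⟨R' + 3 * δ, fun ζ hζ => ⟨R' + 3 * δ, fun θ hθ => h θ ?_⟩⟩
    have := hζ.trans H hθ
    rwa [add_sub_cancel_right] at this

section
variable {Y : Type*} [MetricSpace Y] [CompactSpace Y]

theorem near_of_dist (H : Hyp S δ) (φ : Bdry S ≃ₜ Y) (R : ℝ) :
    ∃ ε > 0, ∀ ξ η, dist (φ ξ) (φ η) < ε → Near R ξ η := by
  have h1 : ∀ y ∈ (Set.univ : Set Y), φ.symm ⁻¹' {η | Near (R + 3 * δ) (φ.symm y) η} ∈ 𝓝 y :=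
    fun y _ => φ.symm.continuous.continuousAt.preimage_mem_nhds (near_nhds H _ _)
  obtain ⟨V, hV, h2⟩ := lebesgue_number_lemma_nhds isCompact_univ h1
  obtain ⟨ε, hε, h3⟩ := Metric.mem_uniformity_dist.1 hV
  refine ⟨ε, hε, fun ξ η h => ?_⟩
  obtain ⟨y, hy⟩ := h2 (φ ξ) trivial
  have a1 : φ ξ ∈ UniformSpace.ball (φ ξ) V := h3 (by simpa using hε)
  have a2 : φ η ∈ UniformSpace.ball (φ ξ) V := h3 h
  have b1 := hy a1
  have b2 := hy a2
  simp only [Set.mem_preimage, Homeomorph.symm_apply_apply, Set.mem_ofPred_eq] at b1 b2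
  have := (b1.symm H).trans H b2
  rwa [add_sub_cancel_right] at this

theorem dist_of_near (H : Hyp S δ) (φ : Bdry S ≃ₜ Y) {ε : ℝ} (hε : 0 < ε) :
    ∃ R : ℝ, ∀ ξ η, Near R ξ η → dist (φ ξ) (φ η) < ε := by
  have hδ := H.nonneg
  have : CompactSpace (Bdry S) := φ.symm.compactSpace
  have h1 : ∀ ξ : Bdry S, ∃ R : ℝ, ∀ η, Near R ξ η → dist (φ η) (φ ξ) < ε / 2 := by
    intro ξ
    have ho : IsOpen (φ ⁻¹' Metric.ball (φ ξ) (ε / 2)) := Metric.isOpen_ball.preimage φ.continuous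
    exact ho ξ (by simpa using hε)
  choose R hR using h1
  obtain ⟨t, -, ht⟩ := isCompact_univ.elim_nhds_subcover
    (fun ξ : Bdry S => {η | Near (R ξ + 3 * δ) ξ η}) (fun ξ _ => near_nhds H _ _)
  obtain ⟨M, hM⟩ := (t.finite_toSet.image R).bddAbove
  refine ⟨M + 3 * δ, fun ζ η h => ?_⟩
  have hz := ht (Set.mem_univ ζ)
  simp only [Set.mem_iUnion, Set.mem_ofPred_eq] at hz
  obtain ⟨ξ, hξ, hz⟩ := hz
  have hle : R ξ ≤ M := hM ⟨ξ, hξ, rfl⟩
  have h2 := hz.trans H (h.mono (by linarith : R ξ + 3 * δ ≤ M + 3 * δ))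
  rw [add_sub_cancel_right] at h2
  have h3 := hR ξ η h2
  have h4 := hR ξ ζ (hz.mono (by linarith))
  have := dist_triangle_right (φ ζ) (φ η) (φ ξ)
  linarith

end

/-- a step of length `L` towards a boundary point -/
theorem exists_step (H : Hyp S δ) (x : GSeq S) (L : ℕ) :
    ∃ h : G, wlen S h = L ∧ ∃ N : ℕ, ∀ m ≥ N, (L : ℝ) - δ ≤ gp S 1 h (x.1 m) := by
  obtain ⟨N, hN⟩ := x.2 L
  have h1 := hN N le_rfl N le_rfl
  rw [gp_self, D_one] at h1
  obtain ⟨h, h2, h3⟩ := exists_geod H.gen (x.1 N) L (by exact_mod_cast h1)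
  refine ⟨h, h2, N, fun m hm => H.tr ?_ (hN N le_rfl m hm)⟩
  rw [gp_eq, D_one, D_one, h2]
  unfold D
  have : (wlen S (h⁻¹ * x.1 N) : ℝ) + L = wlen S (x.1 N) := by exact_mod_cast h3
  linarith

/-- consecutive steps towards close boundary points make a small angle -/
theorem step_angle (H : Hyp S δ) {x y : ℕ → G} {L : ℕ} {h h' : G} (hL : 4 * δ < L)
    (hh : wlen S h = L) (hx : ∃ N : ℕ, ∀ m ≥ N, (L : ℝ) - δ ≤ gp S 1 h (x m))
    (hy : ∃ N : ℕ, ∀ m ≥ N, (L : ℝ) - δ ≤ gp S 1 h' (y m))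
    (hE : E S (L - δ) (fun n => h⁻¹ * x n) y) : gp S 1 h⁻¹ h' ≤ 2 * δ := by
  obtain ⟨N1, hx⟩ := hx
  obtain ⟨N2, hy⟩ := hy
  obtain ⟨N3, hE⟩ := hE
  set N := max N1 (max N2 N3) with hN
  have a1 := hx N (by omega)
  have a2 := hy N (by omega)
  have a3 := hE N (by omega) N (by omega)
  have b1 := gp_add H.gen 1 h (x N)
  rw [D_one, hh] at b1
  have b2 := gp_mul (S := S) h⁻¹ h 1 (x N)
  rw [inv_mul_cancel, mul_one] at b2
  have b3 : gp S 1 h⁻¹ (h⁻¹ * x N) ≤ δ := by linarith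
  rw [gp_comm H.gen] at a3
  have b4 := H.tr a2 a3
  have := H.tr' b3 (y := h') (by linarith)
  linarith

theorem exists_ne (H : Hyp S δ) (ξ : Bdry S) : ∃ η : Bdry S, η ≠ ξ := by
  have hδ := H.nonneg
  by_contra hcon
  push Not at hcon
  have hall : ∀ a b : Bdry S, a = b := fun a b => (hcon a).trans (hcon b).symm
  obtain ⟨x, -⟩ := exists_rep ξ
  obtain ⟨L, hL⟩ := exists_nat_ge (7 * δ + 1)
  obtain ⟨h, hh, hx⟩ := exists_step H x L
  have hE : E S (L - δ) (fun n => h⁻¹ * x.1 n) x.1 :=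
    (lim_eq_iff H (x.smul H h⁻¹) x).1 (hall _ _) _
  have hang := step_angle H (by linarith) hh hx hx hE
  have br : ∀ a : G, ∀ k : G, wlen S k = L → gp S 1 k⁻¹ k ≤ 2 * δ →
      Broken S L (2 * δ) (fun n => a * k ^ n) := by
    intro a k hk hk'
    constructor
    · intro n
      show D S (a * k ^ n) (a * k ^ (n + 1)) = L
      rw [D_mul, pow_succ]
      have := D_mul (S := S) (k ^ n) 1 k
      rw [mul_one] at this
      rw [this, D_one, hk]
    · intro n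
      show gp S (a * k ^ (n + 1)) (a * k ^ n) (a * k ^ (n + 2)) ≤ 2 * δ
      have := gp_mul (S := S) (a * k ^ (n + 1)) 1 k⁻¹ k
      have e1 : a * k ^ (n + 1) * k⁻¹ = a * k ^ n := by group
      have e2 : a * k ^ (n + 1) * k = a * k ^ (n + 2) := by group
      rw [mul_one, e1, e2] at this
      rw [this]; exact hk'
  have B1 := br 1 h hh hang
  have B2 := br 1 h⁻¹ (by rw [wlen_inv H.gen, hh]) (by rw [inv_inv, gp_comm H.gen]; exact hang)
  let u : GSeq S := ⟨fun n => 1 * h ^ n, B1.gromov H (by linarith) (by linarith) (by simp)⟩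
  let v : GSeq S := ⟨fun n => 1 * h⁻¹ ^ n, B2.gromov H (by linarith) (by linarith) (by simp)⟩
  obtain ⟨N, hN⟩ := (lim_eq_iff H v u).1 (hall _ _) (4 * δ + 1)
  have h1 := hN (N + 1) (by omega) (N + 1) (by omega)
  have B3 := br (h ^ (N + 1))⁻¹ h hh hang
  have h2 := B3.C H (by linarith) (show 0 < N + 1 by omega) (show N + 1 < (N + 1) + (N + 1) by omega)
  have e1 : (h ^ (N + 1))⁻¹ * h ^ (N + 1) = 1 := by group
  have e2 : (h ^ (N + 1))⁻¹ * h ^ 0 = 1 * h⁻¹ ^ (N + 1) := by group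
  have e3 : (h ^ (N + 1))⁻¹ * h ^ (N + 1 + (N + 1)) = 1 * h ^ (N + 1) := by group
  simp only [e1, e2, e3] at h2
  have h3 : 4 * δ + 1 ≤ gp S 1 (1 * h⁻¹ ^ (N + 1)) (1 * h ^ (N + 1)) := h1
  linarith

theorem infinite_of_seq (x : GSeq S) : Infinite G := by
  by_contra hfin
  rw [not_infinite_iff_finite] at hfin
  obtain ⟨M, hM⟩ := (Set.finite_range (fun g : G => (wlen S g : ℝ))).bddAbove
  obtain ⟨N, hN⟩ := x.2 (M + 1)
  have h1 := hN N le_rfl N le_rfl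
  rw [gp_self, D_one] at h1
  have := hM ⟨x.1 N, rfl⟩
  simp only at this
  linarith

/-- seen from far points of a broken geodesic, other boundary points are far from its end -/
theorem far (H : Hyp S δ) {L c : ℝ} {g : ℕ → G} (B : Broken S L c g)
    (hL : 2 * c + 3 * δ + 1 ≤ L) (hc : 0 ≤ c) (h0 : g 0 = 1) (y : GSeq S)
    (hy : y.lim ≠ GSeq.lim ⟨g, B.gromov H hL hc h0⟩) :
    ∃ K : ℕ, ∀ k ≥ K, ¬ Near (c + 5 * δ + 1) (y.smul H (g k)⁻¹).lim
      (GSeq.smul H (g k)⁻¹ ⟨g, B.gromov H hL hc h0⟩).lim := by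
  have hδ := H.nonneg
  have h1 : ∃ r, ¬ E S r y.1 g := by
    by_contra h
    push Not at h
    exact hy ((lim_eq_iff H y ⟨g, _⟩).2 h)
  obtain ⟨r, hr⟩ := h1
  obtain ⟨K, hK⟩ := exists_nat_ge (r + c + 4 * δ)
  refine ⟨K + 1, fun k hk hn => hr ?_⟩
  obtain ⟨N, hN⟩ := hn.toE H
  refine ⟨max N (k + 1), fun m hm j hj => ?_⟩
  have a1 : c + 5 * δ + 1 - 2 * δ ≤ gp S 1 ((g k)⁻¹ * y.1 m) ((g k)⁻¹ * g j) :=
    hN m (le_of_max_le_left hm) j (le_of_max_le_left hj)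
  have a2 := gp_mul (S := S) (g k)⁻¹ (g k) (y.1 m) (g j)
  rw [inv_mul_cancel] at a2
  have a3 := B.C H (by linarith) (show 0 < k by omega) (show k < j by omega)
  rw [h0] at a3
  have a4 := H.tr' a3 (y := y.1 m) (by linarith)
  have a5 := gp_add H.gen 1 (g k) (y.1 m)
  have a6 := gp_add H.gen 1 (g k) (g j)
  have a7 := B.grow H hL hc 0 k
  rw [zero_add, h0] at a7
  have hk' : (K : ℝ) ≤ k := by exact_mod_cast (by omega : K ≤ k)
  have b1 : r + δ ≤ gp S 1 (y.1 m) (g k) := by rw [gp_comm H.gen]; linarith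
  have b2 : r + δ ≤ gp S 1 (g k) (g j) := by linarith
  have := H.tr b1 b2
  linarith

end Pool.Agent.H849Z.Conv
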