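import Mathlib

/-! Word metric, hyperbolic groups, Gromov boundary, convergence actions. -/

namespace Pool.Agent.H849Z.Conv

variable {G : Type*} [Group G]

/-- Word length of `g` with respect to `S`: the least length of a word in the elements of `S` and
their inverses whose product is `g`. -/
noncomputable def wlen (S : Set G) (g : G) : ℕ :=
  sInf {n | ∃ l : List G, (∀ a ∈ l, a ∈ S ∨ a⁻¹ ∈ S) ∧ l.prod = g ∧ l.length = n}

/-- The Gromov product of `x` and `y` based at `w` for the word metric `d(x,y) = |x⁻¹ y|`. -/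
noncomputable def gp (S : Set G) (w x y : G) : ℝ :=
  ((wlen S (w⁻¹ * x) : ℝ) + (wlen S (w⁻¹ * y) : ℝ) - (wlen S (x⁻¹ * y) : ℝ)) / 2

/-- `S` is a finite generating set of `G` whose word metric is Gromov hyperbolic. -/
def HypGen (S : Set G) : Prop :=
  S.Finite ∧ Subgroup.closure S = ⊤ ∧
    ∃ δ : ℝ, ∀ w x y z : G, min (gp S w x y) (gp S w y z) - δ ≤ gp S w x z

/-- Sequences in `G` converging to infinity in the sense of Gromov. -/
def GSeq (S : Set G) : Type _ :=
  {x : ℕ → G // ∀ R : ℝ, ∃ N : ℕ, ∀ m ≥ N, ∀ n ≥ N, R ≤ gp S 1 (x m) (x n)}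

/-- Two such sequences are equivalent if the Gromov products of their terms tend to infinity. -/
def GSeq.Rel {S : Set G} (x y : GSeq S) : Prop :=
  ∀ R : ℝ, ∃ N : ℕ, ∀ n ≥ N, R ≤ gp S 1 (x.1 n) (y.1 n)

/-- The Gromov boundary: equivalence classes of sequences converging to infinity. -/
def Bdry (S : Set G) : Type _ := Quot (GSeq.Rel (S := S))

/-- The boundary point defined by a sequence converging to infinity. -/
def GSeq.lim {S : Set G} (x : GSeq S) : Bdry S := Quot.mk _ x

/-- The boundary points `ξ` and `η` have representatives whose Gromov products are eventually at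
least `R`. -/
def Near {S : Set G} (R : ℝ) (ξ η : Bdry S) : Prop :=
  ∃ x y : GSeq S, x.lim = ξ ∧ y.lim = η ∧
    ∃ N : ℕ, ∀ m ≥ N, ∀ n ≥ N, R ≤ gp S 1 (x.1 m) (y.1 n)

/-- The usual topology of the Gromov boundary: `U` is open if for each `ξ ∈ U` there is `R` such
that `U` contains all `η` with `Near R ξ η`. -/
instance Bdry.instTopologicalSpace (S : Set G) : TopologicalSpace (Bdry S) where
  IsOpen U := ∀ ξ ∈ U, ∃ R : ℝ, ∀ η, Near R ξ η → η ∈ U
  isOpen_univ := fun _ _ => ⟨0, fun _ _ => trivial⟩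
  isOpen_inter := by
    intro U V hU hV ξ hξ
    obtain ⟨R, hR⟩ := hU ξ hξ.1
    obtain ⟨R', hR'⟩ := hV ξ hξ.2
    refine ⟨max R R', fun η h => ?_⟩
    obtain ⟨u, v, hu, hv, N, hN⟩ := h
    exact ⟨hR η ⟨u, v, hu, hv, N, fun m hm n hn => (le_max_left _ _).trans (hN m hm n hn)⟩,
      hR' η ⟨u, v, hu, hv, N, fun m hm n hn => (le_max_right _ _).trans (hN m hm n hn)⟩⟩
  isOpen_sUnion := by
    intro T hT ξ hξ
    obtain ⟨U, hU, hξU⟩ := hξ
    obtain ⟨R, hR⟩ := hT U hU ξ hξU
    exact ⟨R, fun η h => ⟨U, hU, hR η h⟩⟩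

/-- Convergence group action: every sequence of pairwise distinct elements has a subsequence
converging to a point `a` uniformly on the compact subsets of the complement of a point `b`. -/
def IsConvergenceAction (G : Type*) (X : Type*) [Group G] [TopologicalSpace X] [MulAction G X] :
    Prop :=
  ∀ γ : ℕ → G, Function.Injective γ → ∃ ψ : ℕ → ℕ, StrictMono ψ ∧ ∃ a b : X,
    ∀ K : Set X, IsCompact K → b ∉ K → ∀ U ∈ nhds a,
      ∃ N : ℕ, ∀ k ≥ N, ∀ x ∈ K, γ (ψ k) • x ∈ U

end Pool.Agent.H849Z.Conv
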