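import Pool.Agent.H849Z.Conv.Bdry

namespace Pool.Agent.H849Z.Conv

open Filter Topology

variable {G : Type*} [Group G] {S : Set G} {δ : ℝ}
variable {X : Type*} [MetricSpace X] [CompactSpace X] [MulAction G X] [ContinuousConstSMul G X]

theorem unif_fin (T : Set G) (hT : T.Finite) {ε : ℝ} (hε : 0 < ε) :
    ∃ ε' > 0, ∀ h ∈ T, ∀ u v : X, dist u v < ε' → dist (h • u) (h • v) < ε := by
  induction T, hT using Set.Finite.induction_on with
  | empty => exact ⟨1, one_pos, by simp⟩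
  | @insert a s _ _ ih =>
    obtain ⟨e1, he1, h1⟩ := ih
    have hu : UniformContinuous (fun u : X => a • u) :=
      CompactSpace.uniformContinuous_of_continuous (continuous_const_smul a)
    obtain ⟨e2, he2, h2⟩ := Metric.uniformContinuous_iff.1 hu ε hε
    refine ⟨min e1 e2, lt_min he1 he2, fun h hh u v huv => ?_⟩
    rcases hh with rfl | hh
    · exact h2 (huv.trans_le (min_le_right _ _))
    · exact h1 h hh u v (huv.trans_le (min_le_left _ _))

theorem flow (H : Hyp S δ) (Λ : Set X) (hΛ : IsCompact Λ) (φ : Bdry S ≃ₜ Λ)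
    (hφ : ∀ (g : G) (x y : GSeq S), (∀ n, y.1 n = g * x.1 n) →
      (φ y.lim : X) = g • (φ x.lim : X)) :
    ∃ ε > 0, ∃ D₀ > 0, ∀ x : X, (∀ g : G, ∃ p ∈ Λ, dist (g • x) p < ε) →
      ∃ g : ℕ → G, Function.Injective g ∧ ∃ η ∈ Λ,
        (∀ k, dist ((g k)⁻¹ • x) ((g k)⁻¹ • η) < 2 * D₀ / 3) ∧
        ∀ y ∈ Λ, y ≠ η → ∃ K : ℕ, ∀ k ≥ K, D₀ ≤ dist ((g k)⁻¹ • y) ((g k)⁻¹ • η) := by
  have hδ := H.nonneg
  have : CompactSpace Λ := isCompact_iff_compactSpace.1 hΛ
  have hsm : ∀ (g : G) (x : GSeq S), (φ (x.smul H g).lim : X) = g • (φ x.lim : X) :=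
    fun g x => hφ g x _ (fun _ => rfl)
  obtain ⟨D₀, hD₀, hD⟩ := near_of_dist H φ (2 * δ + 5 * δ + 1)
  obtain ⟨R₀, hR₀⟩ := dist_of_near H φ (show 0 < D₀ / 3 by positivity)
  obtain ⟨L, hL⟩ := exists_nat_ge (max (R₀ + 4 * δ) (7 * δ + 1))
  have hL1 : R₀ + 4 * δ ≤ L := le_of_max_le_left hL
  have hL2 : 7 * δ + 1 ≤ L := le_of_max_le_right hL
  obtain ⟨e2, he2, h2⟩ := near_of_dist H φ (L + δ)
  obtain ⟨e3, he3, h3⟩ := unif_fin (X := X) _ (finite_ball H.fin H.gen L)
    (show 0 < e2 / 2 by positivity)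
  refine ⟨min e3 (min (e2 / 2) (D₀ / 3)), by positivity, D₀, hD₀, fun x hx => ?_⟩
  have hz : ∀ g : G, ∃ z : GSeq S,
      dist (g⁻¹ • x) (φ z.lim : X) < min e3 (min (e2 / 2) (D₀ / 3)) := by
    intro g
    obtain ⟨p, hp, hd⟩ := hx g⁻¹
    obtain ⟨z, hz⟩ := exists_rep (φ.symm ⟨p, hp⟩)
    refine ⟨z, ?_⟩
    rw [hz, Homeomorph.apply_symm_apply]
    exact hd
  choose z hz using hz
  choose h hh hs using fun g => exists_step H (z g) L
  let g : ℕ → G := fun n => Nat.rec 1 (fun _ a => a * h a) n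
  have g0 : g 0 = 1 := rfl
  have gs : ∀ n, g (n + 1) = g n * h (g n) := fun n => rfl
  have coh : ∀ a : G, E S (L - δ) (fun n => (h a)⁻¹ * (z a).1 n) (z (a * h a)).1 := by
    intro a
    have b1 := h3 (h a)⁻¹ (by
      show wlen S (h a)⁻¹ ≤ L
      rw [wlen_inv H.gen, hh]) _ _ ((hz a).trans_le (min_le_left _ _))
    rw [← hsm, smul_smul, ← mul_inv_rev] at b1
    have b2 := (hz (a * h a)).trans_le ((min_le_right _ _).trans (min_le_left _ _))
    have b3 : dist (φ ((z a).smul H (h a)⁻¹).lim) (φ (z (a * h a)).lim) < e2 := by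
      rw [Subtype.dist_eq]
      have := dist_triangle_left (φ ((z a).smul H (h a)⁻¹).lim : X) (φ (z (a * h a)).lim : X)
        ((a * h a)⁻¹ • x)
      linarith
    exact ((h2 _ _ b3).toE H).mono (by linarith)
  have B : Broken S L (2 * δ) g := by
    constructor
    · intro k
      rw [gs]
      have := D_mul (S := S) (g k) 1 (h (g k))
      rw [mul_one] at this
      rw [this, D_one, hh]
    · intro k
      have a1 := step_angle H (by linarith) (hh (g k)) (hs (g k)) (hs (g k * h (g k))) (coh (g k))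
      have a2 := gp_mul (S := S) (g (k + 1)) 1 (h (g k))⁻¹ (h (g k * h (g k)))
      have e1 : g (k + 1) * (h (g k))⁻¹ = g k := by rw [gs]; group
      have e2 : g (k + 1) * h (g k * h (g k)) = g (k + 2) := by rw [gs (k + 1), gs k]
      rw [mul_one, e1, e2] at a2
      linarith
  have hL3 : 2 * (2 * δ) + 3 * δ + 1 ≤ (L : ℝ) := by linarith
  have hc : 0 ≤ 2 * δ := by linarith
  let η : GSeq S := ⟨g, B.gromov H hL3 hc g0⟩
  refine ⟨g, B.inj H hL3 hc, φ η.lim, (φ η.lim).2, fun k => ?_, fun y hy hne => ?_⟩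
  · have a1 : E S (L - 4 * δ) (η.smul H (g k)⁻¹).1 (z (g k)).1 := by
      obtain ⟨N, hN⟩ := hs (g k)
      refine ⟨max N (k + 2), fun j hj m hm => ?_⟩
      have c1 := hN m (le_of_max_le_left hm)
      have c2 := B.B' H (by linarith) (show k + 1 < j by omega)
      have c3 := gp_add H.gen (g k) (g (k + 1)) (g j)
      rw [B.len] at c3
      have c4 := gp_mul (S := S) (g k)⁻¹ (g k) (g (k + 1)) (g j)
      have e1 : (g k)⁻¹ * g (k + 1) = h (g k) := by rw [gs]; group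
      rw [inv_mul_cancel, e1, gp_comm H.gen] at c4
      have c5 : (L : ℝ) - 3 * δ ≤ gp S 1 ((g k)⁻¹ * g j) (h (g k)) := by linarith
      have c6 := H.tr c5 (show (L : ℝ) - 3 * δ ≤ _ from le_trans (by linarith) c1)
      show (L : ℝ) - 4 * δ ≤ gp S 1 ((g k)⁻¹ * g j) ((z (g k)).1 m)
      linarith
    have a2 := hR₀ _ _ (a1.near.mono (by linarith))
    rw [Subtype.dist_eq, hsm] at a2
    have a3 := (hz (g k)).trans_le ((min_le_right _ _).trans (min_le_right _ _))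
    have := dist_triangle_right ((g k)⁻¹ • x) ((g k)⁻¹ • (φ η.lim : X)) (φ (z (g k)).lim : X)
    linarith
  · obtain ⟨w, hw⟩ := exists_rep (φ.symm ⟨y, hy⟩)
    have hwy : (φ w.lim : X) = y := by rw [hw, Homeomorph.apply_symm_apply]
    have hne' : w.lim ≠ η.lim := by
      intro h
      apply hne
      rw [← hwy, h]
    obtain ⟨K, hK⟩ := far H B hL3 hc g0 w hne'
    refine ⟨K, fun k hk => ?_⟩
    by_contra hlt
    push Not at hlt
    apply hK k hk
    apply hD
    rw [Subtype.dist_eq, hsm, hsm, hwy]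
    exact hlt

omit [CompactSpace X] [ContinuousConstSMul G X] in
theorem conv_pt {γ : ℕ → G} {a b : X}
    (h : ∀ K : Set X, IsCompact K → b ∉ K → ∀ U ∈ nhds a,
      ∃ N : ℕ, ∀ k ≥ N, ∀ x ∈ K, γ k • x ∈ U) {u : X} (hu : u ≠ b) {r : ℝ} (hr : 0 < r) :
    ∃ N : ℕ, ∀ k ≥ N, dist (γ k • u) a < r := by
  obtain ⟨N, hN⟩ := h {u} isCompact_singleton (fun h => hu (Set.mem_singleton_iff.1 h).symm)
    (Metric.ball a r) (Metric.ball_mem_nhds a hr)
  exact ⟨N, fun k hk => hN k hk u rfl⟩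

theorem two_point (hfin : S.Finite) (hgen : Subgroup.closure S = ⊤) [Infinite G]
    (hconv : IsConvergenceAction G X) (Λ : Set X) (hinv : ∀ g : G, ∀ x ∈ Λ, g • x ∈ Λ)
    (p q : X) (hpq : p ≠ q) (hΛ : Λ = {p, q}) :
    ∃ ε > 0, ∀ x ∉ Λ, ¬ ∀ g : G, ∃ u ∈ Λ, dist (g • x) u < ε := by
  have hρ : 0 < dist p q := dist_pos.2 hpq
  obtain ⟨e, he, h1⟩ := unif_fin (X := X) (S ∪ S⁻¹) (hfin.union hfin.inv)
    (show 0 < dist p q / 2 by positivity)
  refine ⟨min e (dist p q / 2), by positivity, fun x hx hall => ?_⟩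
  have sep : ∀ u ∈ Λ, ∀ v ∈ Λ, dist u v < dist p q → u = v := by
    intro u hu v hv huv
    rw [hΛ] at hu hv
    rcases hu with rfl | rfl <;> rcases hv with rfl | rfl
    · rfl
    · exact absurd huv (lt_irrefl _)
    · rw [dist_comm] at huv; exact absurd huv (lt_irrefl _)
    · rfl
  obtain ⟨p₀, hp₀, hd₀⟩ := hall 1
  rw [one_smul] at hd₀
  have key : ∀ l : List G, (∀ a ∈ l, a ∈ S ∨ a⁻¹ ∈ S) →
      dist (l.prod • x) (l.prod • p₀) < min e (dist p q / 2) := by
    intro l hl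
    induction l with
    | nil => simpa using hd₀
    | cons a l ih =>
      have ih' := ih (fun b hb => hl b (List.mem_cons_of_mem _ hb))
      have a1 := h1 a (hl a List.mem_cons_self) _ _ (ih'.trans_le (min_le_left _ _))
      rw [smul_smul, smul_smul, ← List.prod_cons] at a1
      obtain ⟨u, hu, hud⟩ := hall (a :: l).prod
      have a2 := hud.trans_le (min_le_right _ _)
      have a3 := dist_triangle_left u ((a :: l).prod • p₀) ((a :: l).prod • x)
      have := sep u hu _ (hinv (a :: l).prod p₀ hp₀) (by linarith)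
      rw [← this]; exact hud
  have key' : ∀ g : G, dist (g • x) (g • p₀) < dist p q / 2 := by
    intro g
    obtain ⟨l, hl, rfl, -⟩ := exists_word hgen g
    exact (key l hl).trans_le (min_le_right _ _)
  obtain ⟨q₀, hq₀, hne, hd⟩ : ∃ q₀ ∈ Λ, q₀ ≠ p₀ ∧ dist p₀ q₀ = dist p q := by
    have hp₀' := hp₀
    rw [hΛ] at hp₀'
    rcases hp₀' with rfl | rfl
    · exact ⟨q, by rw [hΛ]; simp, hpq.symm, rfl⟩
    · exact ⟨p, by rw [hΛ]; simp, hpq, dist_comm _ _⟩
  have two : ∀ u ∈ Λ, u ≠ p₀ → u = q₀ := by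
    intro u hu hu'
    rw [hΛ] at hu hp₀ hq₀
    simp only [Set.mem_insert_iff, Set.mem_singleton_iff] at hu hp₀ hq₀
    rcases hu with rfl | rfl <;> rcases hp₀ with rfl | rfl <;> rcases hq₀ with rfl | rfl <;>
      first | rfl | exact absurd rfl hu' | exact absurd rfl hne
  have hΛf : Λ.Finite := by rw [hΛ]; exact Set.toFinite _
  have : Finite Λ := hΛf
  obtain ⟨y, hy⟩ := Finite.exists_infinite_fiber
    (fun g : G => (⟨g • p₀, hinv g p₀ hp₀⟩ : Λ))
  let emb := Infinite.natEmbedding ((fun g : G => (⟨g • p₀, hinv g p₀ hp₀⟩ : Λ)) ⁻¹' {y})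
  have hemb : ∀ n, (emb n : G) • p₀ = y := fun n => congrArg Subtype.val (emb n).2
  let γ : ℕ → G := fun n => (emb 0 : G)⁻¹ * emb n
  have hγi : Function.Injective γ := by
    intro m n hmn
    exact emb.injective (Subtype.ext (mul_left_cancel hmn))
  have hγp : ∀ n, γ n • p₀ = p₀ := by
    intro n
    show ((emb 0 : G)⁻¹ * emb n) • p₀ = p₀
    rw [mul_smul, hemb n, ← hemb 0, inv_smul_smul]
  have hγq : ∀ n, γ n • q₀ = q₀ := by
    intro n
    apply two _ (hinv _ _ hq₀)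
    intro h
    rw [← hγp n] at h
    exact hne (smul_left_cancel _ h)
  obtain ⟨ψ, -, a, b, hab⟩ := hconv γ hγi
  have fixed : ∀ u, u ≠ b → (∀ n, γ n • u = u) → u = a := by
    intro u hu hf
    by_contra hua
    obtain ⟨N, hN⟩ := conv_pt hab hu (dist_pos.2 hua)
    have := hN N le_rfl
    rw [hf] at this
    exact lt_irrefl _ this
  have hxp : x ≠ p₀ := fun h => hx (h ▸ hp₀)
  by_cases hb : p₀ = b
  · subst hb
    have hqa := fixed q₀ hne hγq
    subst hqa
    obtain ⟨N, hN⟩ := conv_pt hab hxp (show 0 < dist p q / 2 by positivity)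
    have a1 := hN N le_rfl
    have a2 := key' (γ (ψ N))
    rw [hγp] at a2
    have := dist_triangle_left p₀ q₀ (γ (ψ N) • x)
    linarith
  · have hpa := fixed p₀ hb hγp
    subst hpa
    have hqb : q₀ = b := by
      by_contra hqb
      exact hne (fixed q₀ hqb hγq)
    subst hqb
    obtain ⟨N, hN⟩ := hab (Metric.ball q₀ (dist p q / 2))ᶜ
      Metric.isOpen_ball.isClosed_compl.isCompact (by simpa using hρ) {x}ᶜ
      (isOpen_compl_singleton.mem_nhds (fun h => hxp (Set.mem_singleton_iff.1 h).symm))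
    have a1 : (γ (ψ N))⁻¹ • x ∈ Metric.ball q₀ (dist p q / 2) := by
      by_contra h
      have := hN N le_rfl _ h
      rw [smul_inv_smul] at this
      exact this rfl
    rw [Metric.mem_ball] at a1
    have a2 := key' (γ (ψ N))⁻¹
    have e1 : (γ (ψ N))⁻¹ • p₀ = p₀ := by rw [inv_smul_eq_iff, hγp]
    rw [e1] at a2
    have := dist_triangle_left p₀ q₀ ((γ (ψ N))⁻¹ • x)
    linarith

theorem escape (H : Hyp S δ) (hconv : IsConvergenceAction G X) (Λ : Set X) (hΛ : IsCompact Λ)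
    (hinv : ∀ g : G, ∀ x ∈ Λ, g • x ∈ Λ) (φ : Bdry S ≃ₜ Λ)
    (hφ : ∀ (g : G) (x y : GSeq S), (∀ n, y.1 n = g * x.1 n) →
      (φ y.lim : X) = g • (φ x.lim : X)) :
    ∃ ε > 0, ∀ x ∉ Λ, ¬ ∀ g : G, ∃ u ∈ Λ, dist (g • x) u < ε := by
  by_cases h3 : ∀ u v : X, ∃ y ∈ Λ, y ≠ u ∧ y ≠ v
  · obtain ⟨ε, hε, D₀, hD₀, hf⟩ := flow H Λ hΛ φ hφ
    refine ⟨ε, hε, fun x hx hall => ?_⟩
    obtain ⟨g, hg, η, hη, h1, h2⟩ := hf x hall
    obtain ⟨ψ, hψ, a, b, hab⟩ := hconv (fun k => (g k)⁻¹) (fun m n h => hg (inv_injective h))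
    obtain ⟨y, hy, hyη, hyb⟩ := h3 η b
    obtain ⟨K, hK⟩ := h2 y hy hyη
    obtain ⟨N1, hN1⟩ := conv_pt hab hyb (show 0 < D₀ / 6 by positivity)
    by_cases hb : η = b
    · have hxb : x ≠ b := fun h => hx (h ▸ hb ▸ hη)
      obtain ⟨N2, hN2⟩ := conv_pt hab hxb (show 0 < D₀ / 6 by positivity)
      set N := max K (max N1 N2)
      have a1 := hK (ψ N) (le_trans (le_max_left _ _) (hψ.id_le N))
      have a2 := hN1 N (by omega)
      have a3 := hN2 N (by omega)
      have a4 := h1 (ψ N)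
      have a5 := dist_triangle_right ((g (ψ N))⁻¹ • y) ((g (ψ N))⁻¹ • x) a
      have a6 := dist_triangle ((g (ψ N))⁻¹ • y) ((g (ψ N))⁻¹ • x) ((g (ψ N))⁻¹ • η)
      linarith
    · obtain ⟨N2, hN2⟩ := conv_pt hab hb (show 0 < D₀ / 6 by positivity)
      set N := max K (max N1 N2)
      have a1 := hK (ψ N) (le_trans (le_max_left _ _) (hψ.id_le N))
      have a2 := hN1 N (by omega)
      have a3 := hN2 N (by omega)
      have a5 := dist_triangle_right ((g (ψ N))⁻¹ • y) ((g (ψ N))⁻¹ • η) a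
      linarith
  · push Not at h3
    obtain ⟨u, v, huv⟩ := h3
    rcases Λ.eq_empty_or_nonempty with rfl | ⟨p, hp⟩
    · refine ⟨1, one_pos, fun x _ hall => ?_⟩
      obtain ⟨u, hu, -⟩ := hall 1
      exact hu
    · obtain ⟨η, hη⟩ := exists_ne H (φ.symm ⟨p, hp⟩)
      obtain ⟨w, -⟩ := exists_rep η
      have : Infinite G := infinite_of_seq w
      have hq : (φ η : X) ∈ Λ := (φ η).2
      have hpq : p ≠ (φ η : X) := by
        intro h
        apply hη
        rw [Homeomorph.eq_symm_apply]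
        exact Subtype.ext h.symm
      refine two_point H.fin H.gen hconv Λ hinv p (φ η) hpq ?_
      apply Set.Subset.antisymm
      · intro y hy
        have a1 := huv y hy
        have a2 := huv p hp
        have a3 := huv _ hq
        by_cases c1 : y = u <;> by_cases c2 : p = u <;> by_cases c3 : (φ η : X) = u <;>
          simp_all
      · rintro y (rfl | rfl)
        · exact hp
        · exact hq

theorem cocompact (H : Hyp S δ) (hconv : IsConvergenceAction G X) (Λ : Set X) (hΛ : IsCompact Λ)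
    (hinv : ∀ g : G, ∀ x ∈ Λ, g • x ∈ Λ) (φ : Bdry S ≃ₜ Λ)
    (hφ : ∀ (g : G) (x y : GSeq S), (∀ n, y.1 n = g * x.1 n) →
      (φ y.lim : X) = g • (φ x.lim : X)) :
    ∃ K : Set X, IsCompact K ∧ K ⊆ Λᶜ ∧ ∀ x ∈ Λᶜ, ∃ g : G, ∃ k ∈ K, x = g • k := by
  obtain ⟨ε, hε, h⟩ := escape H hconv Λ hΛ hinv φ hφ
  refine ⟨(Metric.thickening ε Λ)ᶜ, Metric.isOpen_thickening.isClosed_compl.isCompact,
    Set.compl_subset_compl.2 (Metric.self_subset_thickening hε Λ), fun x hx => ?_⟩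
  have h1 := h x hx
  push Not at h1
  obtain ⟨g, hg⟩ := h1
  refine ⟨g⁻¹, g • x, ?_, by rw [inv_smul_smul]⟩
  intro hm
  obtain ⟨z, hz, hd⟩ := Metric.mem_thickening_iff.1 hm
  exact absurd hd (not_lt.2 (hg z hz))

end Pool.Agent.H849Z.Conv
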