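import Pool.Agent.H849Z.Conv.Defs

namespace Pool.Agent.H849Z.Conv

variable {G : Type*} [Group G] {S : Set G}

theorem wlen_le (l : List G) (hl : ∀ a ∈ l, a ∈ S ∨ a⁻¹ ∈ S) : wlen S l.prod ≤ l.length :=
  Nat.sInf_le ⟨l, hl, rfl, rfl⟩

theorem exists_word (hS : Subgroup.closure S = ⊤) (g : G) :
    ∃ l : List G, (∀ a ∈ l, a ∈ S ∨ a⁻¹ ∈ S) ∧ l.prod = g ∧ l.length = wlen S g := by
  have hg : g ∈ Subgroup.closure S := hS ▸ Subgroup.mem_top g
  have hg' : g ∈ Submonoid.closure (S ∪ S⁻¹) := by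
    rw [← Subgroup.closure_toSubmonoid]; exact hg
  obtain ⟨l, hl0, hp⟩ := Submonoid.exists_list_of_mem_closure hg'
  have hl : ∀ a ∈ l, a ∈ S ∨ a⁻¹ ∈ S := fun a ha => hl0 a ha
  have hne : {n | ∃ l : List G, (∀ a ∈ l, a ∈ S ∨ a⁻¹ ∈ S) ∧ l.prod = g ∧ l.length = n}.Nonempty :=
    ⟨l.length, l, hl, hp, rfl⟩
  exact Nat.sInf_mem hne

theorem wlen_one : wlen S 1 = 0 := by
  have := wlen_le (S := S) [] (by simp)
  simpa using this

theorem wlen_mul_le (hS : Subgroup.closure S = ⊤) (g h : G) :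
    wlen S (g * h) ≤ wlen S g + wlen S h := by
  obtain ⟨l, hl, rfl, hl'⟩ := exists_word hS g
  obtain ⟨m, hm, rfl, hm'⟩ := exists_word hS h
  have := wlen_le (S := S) (l ++ m) (by
    intro a ha
    rcases List.mem_append.1 ha with h | h
    · exact hl a h
    · exact hm a h)
  rw [List.prod_append, List.length_append] at this
  omega

theorem wlen_inv_le (hS : Subgroup.closure S = ⊤) (g : G) : wlen S g⁻¹ ≤ wlen S g := by
  obtain ⟨l, hl, rfl, hl'⟩ := exists_word hS g
  have := wlen_le (S := S) (l.map (fun x => x⁻¹)).reverse (by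
    intro a ha
    rw [List.mem_reverse, List.mem_map] at ha
    obtain ⟨b, hb, rfl⟩ := ha
    rcases hl b hb with h | h
    · right; simpa using h
    · left; exact h)
  rw [← List.prod_inv_reverse] at this
  simp only [List.length_reverse, List.length_map] at this
  omega

theorem wlen_inv (hS : Subgroup.closure S = ⊤) (g : G) : wlen S g⁻¹ = wlen S g := by
  apply le_antisymm (wlen_inv_le hS g)
  have := wlen_inv_le hS g⁻¹
  rwa [inv_inv] at this

theorem exists_geod (hS : Subgroup.closure S = ⊤) (g : G) (L : ℕ) (hL : L ≤ wlen S g) :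
    ∃ h : G, wlen S h = L ∧ wlen S (h⁻¹ * g) + L = wlen S g := by
  obtain ⟨l, hl, rfl, hl'⟩ := exists_word hS g
  have h1 := wlen_le (S := S) (l.take L) (fun a ha => hl a (List.mem_of_mem_take ha))
  have h2 := wlen_le (S := S) (l.drop L) (fun a ha => hl a (List.mem_of_mem_drop ha))
  have h3 : (l.take L).prod * (l.drop L).prod = l.prod := by
    rw [← List.prod_append, List.take_append_drop]
  have h4 := wlen_mul_le hS (l.take L).prod (l.drop L).prod
  rw [h3] at h4
  rw [List.length_take] at h1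
  rw [List.length_drop] at h2
  refine ⟨(l.take L).prod, by omega, ?_⟩
  have : (l.take L).prod⁻¹ * l.prod = (l.drop L).prod := by
    rw [← h3]; group
  rw [this]
  omega

theorem finite_ball (hf : S.Finite) (hS : Subgroup.closure S = ⊤) (L : ℕ) :
    {g : G | wlen S g ≤ L}.Finite := by
  let T : Set G := S ∪ S⁻¹
  have hT : T.Finite := hf.union hf.inv
  have : Finite T := hT
  have h1 := List.finite_length_le T L
  refine (h1.image (fun l : List T => (l.map Subtype.val).prod)).subset ?_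
  intro g hg
  obtain ⟨l, hl, rfl, hl'⟩ := exists_word hS g
  have hl2 : ∀ a ∈ l, a ∈ T := fun a ha => by
    rcases hl a ha with h | h
    · exact Or.inl h
    · exact Or.inr h
  refine ⟨l.attachWith _ hl2, ?_, ?_⟩
  · simp only [Set.mem_ofPred_eq, List.length_attachWith]
    simp only [Set.mem_ofPred_eq] at hg
    omega
  · simp

/-- real valued word metric -/
noncomputable def D (S : Set G) (x y : G) : ℝ := (wlen S (x⁻¹ * y) : ℝ)

theorem gp_eq (w x y : G) : gp S w x y = (D S w x + D S w y - D S x y) / 2 := rfl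

theorem D_comm (hS : Subgroup.closure S = ⊤) (x y : G) : D S x y = D S y x := by
  unfold D
  rw [← wlen_inv hS]
  simp

theorem D_tri (hS : Subgroup.closure S = ⊤) (x y z : G) : D S x z ≤ D S x y + D S y z := by
  unfold D
  have := wlen_mul_le hS (x⁻¹ * y) (y⁻¹ * z)
  have h2 : x⁻¹ * y * (y⁻¹ * z) = x⁻¹ * z := by group
  rw [h2] at this
  exact_mod_cast this

theorem D_self (x : G) : D S x x = 0 := by
  unfold D
  simp [wlen_one]

theorem D_mul (g x y : G) : D S (g * x) (g * y) = D S x y := by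
  unfold D
  congr 2
  group

theorem D_one (x : G) : D S 1 x = wlen S x := by
  unfold D
  simp

theorem gp_comm (hS : Subgroup.closure S = ⊤) (w x y : G) : gp S w x y = gp S w y x := by
  rw [gp_eq, gp_eq, D_comm hS x y]; ring

theorem gp_add (hS : Subgroup.closure S = ⊤) (w x y : G) :
    gp S w x y + gp S x w y = D S w x := by
  rw [gp_eq, gp_eq, D_comm hS x w]; ring

theorem gp_mul (g w x y : G) : gp S (g * w) (g * x) (g * y) = gp S w x y := by
  rw [gp_eq, gp_eq, D_mul, D_mul, D_mul]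

theorem gp_self (w x : G) : gp S w x x = D S w x := by
  rw [gp_eq, D_self]; ring

theorem gp_base (hS : Subgroup.closure S = ⊤) (w w' x y : G) :
    gp S w x y - D S w w' ≤ gp S w' x y := by
  rw [gp_eq, gp_eq]
  have h1 := D_tri hS w w' x
  have h2 := D_tri hS w w' y
  linarith

/-- hyperbolicity data -/
structure Hyp (S : Set G) (δ : ℝ) : Prop where
  fin : S.Finite
  gen : Subgroup.closure S = ⊤
  four : ∀ w x y z : G, min (gp S w x y) (gp S w y z) - δ ≤ gp S w x z

theorem Hyp.nonneg {δ : ℝ} (H : Hyp S δ) : 0 ≤ δ := by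
  have := H.four 1 1 1 1
  rw [min_self] at this
  linarith

theorem Hyp.tr {δ : ℝ} (H : Hyp S δ) {w x y z : G} {r : ℝ} (h1 : r ≤ gp S w x y)
    (h2 : r ≤ gp S w y z) : r - δ ≤ gp S w x z := by
  have := H.four w x y z
  have h3 := le_min h1 h2
  linarith

/-- if `(x|z) ≤ c` and `(y|z) > c + δ` then `(x|y) ≤ c + δ` -/
theorem Hyp.tr' {δ : ℝ} (H : Hyp S δ) {w x y z : G} {c : ℝ} (h1 : gp S w x z ≤ c)
    (h2 : c + δ < gp S w y z) : gp S w x y ≤ c + δ := by
  by_contra h
  push Not at h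
  have := H.four w x y z
  have h3 := lt_min h h2
  linarith

/-- broken geodesics -/
structure Broken (S : Set G) (L c : ℝ) (g : ℕ → G) : Prop where
  len : ∀ k, D S (g k) (g (k + 1)) = L
  ang : ∀ k, gp S (g (k + 1)) (g k) (g (k + 2)) ≤ c

section
variable {δ L c : ℝ} {g : ℕ → G}

theorem Broken.A (H : Hyp S δ) (B : Broken S L c g) (hL : 2 * c + 3 * δ < L) (i n : ℕ) :
    gp S (g (i + n + 1)) (g i) (g (i + n + 2)) ≤ c + δ := by
  have hδ := H.nonneg
  induction n with
  | zero => have := B.ang i; simp only [add_zero]; linarith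
  | succ n ih =>
    have h1 := gp_add H.gen (g (i + n + 1)) (g (i + n + 2)) (g i)
    rw [B.len, gp_comm H.gen (g (i + n + 1))] at h1
    have h2 := B.ang (i + n + 1)
    have h3 : c + δ < gp S (g (i + n + 2)) (g i) (g (i + n + 1)) := by
      rw [gp_comm H.gen]; linarith
    rw [gp_comm H.gen] at h2
    have := H.tr' h2 h3
    rw [gp_comm H.gen] at this
    exact this

theorem Broken.B (H : Hyp S δ) (B : Broken S L c g) (hL : 2 * c + 3 * δ < L) (n k : ℕ) :
    gp S (g (k + 1)) (g k) (g (k + 2 + n)) ≤ c + δ := by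
  have hδ := H.nonneg
  induction n generalizing k with
  | zero => have := B.ang k; simp only [add_zero]; linarith
  | succ n ih =>
    have h0 := ih (k + 1)
    have e : k + 1 + 2 + n = k + 2 + (n + 1) := by ring
    rw [e] at h0
    have h1 := gp_add H.gen (g (k + 1)) (g (k + 1 + 1)) (g (k + 2 + (n + 1)))
    rw [B.len] at h1
    have h2 := B.ang k
    have h3 : c + δ < gp S (g (k + 1)) (g (k + 2 + (n + 1))) (g (k + 2)) := by
      rw [gp_comm H.gen]; linarith
    exact H.tr' h2 h3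

theorem Broken.B' (H : Hyp S δ) (B : Broken S L c g) (hL : 2 * c + 3 * δ < L) {k j : ℕ}
    (h : k + 1 < j) : gp S (g (k + 1)) (g k) (g j) ≤ c + δ := by
  obtain ⟨n, rfl⟩ : ∃ n, j = k + 2 + n := ⟨j - (k + 2), by omega⟩
  exact B.B H hL n k

theorem Broken.C (H : Hyp S δ) (B : Broken S L c g) (hL : 2 * c + 3 * δ < L) {i k j : ℕ}
    (h1 : i < k) (h2 : k < j) : gp S (g k) (g i) (g j) ≤ c + 2 * δ := by
  have hδ := H.nonneg
  obtain ⟨k, rfl⟩ : ∃ k', k = k' + 1 := ⟨k - 1, by omega⟩
  have hB := B.B' H hL h2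
  rcases Nat.lt_succ_iff_lt_or_eq.1 h1 with h | h
  · obtain ⟨n, rfl⟩ : ∃ n, k = i + n + 1 := ⟨k - (i + 1), by omega⟩
    have hA := B.A H hL i n
    have h3 := gp_add H.gen (g (i + n + 1)) (g (i + n + 2)) (g i)
    rw [B.len, gp_comm H.gen (g (i + n + 1))] at h3
    have h4 : c + δ + δ < gp S (g (i + n + 1 + 1)) (g i) (g (i + n + 1)) := by
      rw [gp_comm H.gen]; linarith
    rw [gp_comm H.gen] at hB
    have := H.tr' hB h4
    rw [gp_comm H.gen] at this
    linarith
  · subst h; linarith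

theorem Broken.grow (H : Hyp S δ) (B : Broken S L c g) (hL : 2 * c + 3 * δ + 1 ≤ L) (hc : 0 ≤ c)
    (i n : ℕ) : (n : ℝ) ≤ D S (g i) (g (i + n)) := by
  have hδ := H.nonneg
  induction n with
  | zero => simp [D_self]
  | succ n ih =>
    rcases Nat.eq_zero_or_pos n with rfl | hn
    · have := B.len i
      simp only [zero_add, Nat.cast_one]
      linarith
    · obtain ⟨m, rfl⟩ : ∃ m, n = m + 1 := ⟨n - 1, by omega⟩
      have hA := B.A H (by linarith) i m
      rw [gp_eq, B.len, D_comm H.gen (g (i + m + 1))] at hA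
      push_cast at ih ⊢
      have e1 : i + (m + 1) = i + m + 1 := by ring
      have e2 : i + (m + 1 + 1) = i + m + 2 := by ring
      rw [e1] at ih
      rw [e2]
      linarith

theorem Broken.inj (H : Hyp S δ) (B : Broken S L c g) (hL : 2 * c + 3 * δ + 1 ≤ L) (hc : 0 ≤ c) :
    Function.Injective g := by
  have key : ∀ i j, i < j → g i ≠ g j := by
    intro i j hij h
    obtain ⟨n, rfl⟩ : ∃ n, j = i + (n + 1) := ⟨j - (i + 1), by omega⟩
    have := B.grow H hL hc i (n + 1)
    rw [← h, D_self] at this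
    have h2 : (0 : ℝ) < ((n + 1 : ℕ) : ℝ) := by positivity
    linarith
  intro i j h
  rcases lt_trichotomy i j with h1 | h1 | h1
  · exact absurd h (key i j h1)
  · exact h1
  · exact absurd h.symm (key j i h1)

theorem Broken.gromov (H : Hyp S δ) (B : Broken S L c g) (hL : 2 * c + 3 * δ + 1 ≤ L) (hc : 0 ≤ c)
    (h0 : g 0 = 1) (R : ℝ) : ∃ N : ℕ, ∀ m ≥ N, ∀ n ≥ N, R ≤ gp S 1 (g m) (g n) := by
  have hδ := H.nonneg
  obtain ⟨N, hN⟩ := exists_nat_ge (R + c + 2 * δ)
  have key : ∀ m ≥ N + 1, ∀ n, m ≤ n → R ≤ gp S 1 (g m) (g n) := by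
    intro m hm n hn
    have hg := B.grow H hL hc 0 m
    rw [zero_add, h0] at hg
    have hm' : (N : ℝ) ≤ m := by exact_mod_cast (by omega : N ≤ m)
    rcases hn.lt_or_eq with h | h
    · have hC := B.C H (by linarith) (show 0 < m by omega) h
      have := gp_add H.gen 1 (g m) (g n)
      rw [h0] at hC
      linarith
    · subst h
      rw [gp_self]; linarith
  refine ⟨N + 1, fun m hm n hn => ?_⟩
  rcases le_total m n with h | h
  · exact key m hm n h
  · rw [gp_comm H.gen]; exact key n hn m h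

end

end Pool.Agent.H849Z.Conv
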